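import Pool.Agent.Q152.CC.Stm
import Pool.Agent.Q166.HC.HCI
import Pool.Agent.Q166.HC.ONE
import Pool.Agent.Q38.CU.Syt
import Pool.Agent.Q26.CU.Cub

set_option autoImplicit false

/-! Project CC (helper152), job MB: high moments of the random function. -/

namespace Pool.Agent.Q224.CC

open Finset MeasureTheory
open Pool.Agent.Q152.CC
open Pool.Agent.Q255.CU (fc m3 e3 v3 f3 S_SYT S_WGT S_CUB)
open Pool.Agent.Q255.HC (Sys ex S_HCI)

/-- the coefficient of a class -/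
noncomputable def cx (M N : ℕ) (c : ℕ → ℝ) (x : ℕ →₀ ZMod 3) : ℂ :=
  ∑ a ∈ (Ioc M (M + N)).filter (fun a => fc a = x), ((c a : ℝ) : ℂ)

lemma norm_cx (M N : ℕ) (c : ℕ → ℝ) (hc : ∀ n, 0 ≤ c n ∧ c n ≤ 1) (x : ℕ →₀ ZMod 3) :
    ‖cx M N c x‖ ^ 2 ≤
      (((Ioc M (M + N)).filter (fun a => fc a = x)).card : ℝ) ^ 2 := by
  refine pow_le_pow_left₀ (norm_nonneg _) ?_ 2
  unfold cx
  refine (norm_sum_le _ _).trans ?_
  refine (sum_le_sum (g := fun _ => (1 : ℝ)) fun a _ => ?_).trans ?_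
  · rw [Complex.norm_real, Real.norm_eq_abs, abs_of_nonneg (hc a).1]
    exact (hc a).2
  · rw [sum_const, nsmul_eq_mul, mul_one]

lemma sum_cx (syt : S_SYT) (M N : ℕ) (c : ℕ → ℝ) (ω : ℕ → ZMod 3) :
    ∑ n ∈ Ioc M (M + N), ((c n : ℝ) : ℂ) * rc ω n =
      ∑ x ∈ (Ioc M (M + N)).image fc, cx M N c x * ex e3 x ω := by
  rw [← sum_fiberwise_of_maps_to (s := Ioc M (M + N))
    (t := (Ioc M (M + N)).image fc) (g := fc) (fun a ha => mem_image_of_mem fc ha)]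
  refine sum_congr rfl fun x _ => ?_
  unfold cx
  rw [sum_mul]
  refine sum_congr rfl fun a ha => ?_
  rw [mem_filter, mem_Ioc] at ha
  show ((c a : ℝ) : ℂ) * f3 ω a = _
  rw [syt.2.1 ω a (by omega), ha.2]

theorem mb0 (hci : S_HCI) (syt : S_SYT) (wgt : S_WGT) (cub : S_CUB) : S_MB := by
  intro k hk η hη
  obtain ⟨C, hC, h1⟩ := hci k hk
  obtain ⟨D, hD, h2⟩ := wgt C hC η hη
  refine ⟨20 * D, by positivity, fun M N R hN hR c hc => ?_⟩
  have hp : IsProbabilityMeasure m3 := by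
    unfold m3
    infer_instance
  have h3 := h1 (ZMod 3) m3 (ZMod 3) e3 v3 syt.1 ((Ioc M (M + N)).image fc) (cx M N c)
  have h4 : ∫ ω, ‖∑ n ∈ Ioc M (M + N), ((c n : ℝ) : ℂ) * rc ω n‖ ^ (2 * k) ∂rm =
      ∫ ω, ‖∑ x ∈ (Ioc M (M + N)).image fc, cx M N c x * ex e3 x ω‖ ^ (2 * k)
        ∂(Measure.infinitePi fun _ : ℕ => m3) := by
    refine integral_congr_ae (Filter.Eventually.of_forall fun ω => ?_)
    show ‖∑ n ∈ Ioc M (M + N), ((c n : ℝ) : ℂ) * rc ω n‖ ^ (2 * k) = _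
    rw [sum_cx syt]
  rw [h4]
  refine h3.trans ?_
  have hv : ∀ x : ℕ →₀ ZMod 3, 0 ≤ ∏ p ∈ x.support, (C * v3 (x p)) := fun x =>
    prod_nonneg fun p _ => mul_nonneg (by linarith) (by unfold v3; norm_num)
  have hR0 : (0 : ℝ) ≤ (R : ℝ) ^ η := Real.rpow_nonneg (Nat.cast_nonneg _) _
  refine pow_le_pow_left₀ (sum_nonneg fun x _ => mul_nonneg (by positivity) (hv x)) ?_ k
  have h5 : ∀ x ∈ (Ioc M (M + N)).image fc, ∏ p ∈ x.support, (C * v3 (x p)) ≤ D * (R : ℝ) ^ η := by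
    intro x hx
    rw [mem_image] at hx
    obtain ⟨a, ha, rfl⟩ := hx
    rw [mem_Ioc] at ha
    refine (h2 a (by omega)).trans ?_
    refine mul_le_mul_of_nonneg_left ?_ hD.le
    refine Real.rpow_le_rpow (Nat.cast_nonneg _) ?_ hη.le
    exact_mod_cast (by omega : a ≤ R)
  calc ∑ x ∈ (Ioc M (M + N)).image fc, ‖cx M N c x‖ ^ 2 * ∏ p ∈ x.support, (C * v3 (x p))
      ≤ ∑ x ∈ (Ioc M (M + N)).image fc,
          (((Ioc M (M + N)).filter (fun a => fc a = x)).card : ℝ) ^ 2 * (D * (R : ℝ) ^ η) :=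
        sum_le_sum fun x hx => mul_le_mul (norm_cx M N c hc x) (h5 x hx) (hv x) (by positivity)
    _ = (∑ x ∈ (Ioc M (M + N)).image fc,
          (((Ioc M (M + N)).filter (fun a => fc a = x)).card : ℝ) ^ 2) * (D * (R : ℝ) ^ η) := by
        rw [sum_mul]
    _ ≤ (20 * N) * (D * (R : ℝ) ^ η) :=
        mul_le_mul_of_nonneg_right (cub M N hN) (by positivity)
    _ = 20 * D * (R : ℝ) ^ η * N := by ring

/-- **Job MB.** -/
theorem mb : S_MB :=
  mb0 (Pool.Agent.Q166.HC.hci Pool.Agent.Q166.HC.one Pool.Agent.Q166.HC.upd)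
    Pool.Agent.Q38.CU.syt Pool.Agent.Q38.CU.wgt Pool.Agent.Q26.CU.cub

end Pool.Agent.Q224.CC
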