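import Pool.Agent.Q62.CC.Stm

/-!
# Project CC of helper62: bounds for the fundamental solutions
-/

set_option autoImplicit false

open Set Filter Topology MeasureTheory

namespace Pool.Agent.Q224.CC

lemma core {m m' S D : ℝ → ℝ} {α β c l : ℝ} (hab : α < β) (hc : 0 < c) (hl : 0 < l)
    (hm : ∀ x ∈ Icc α β, HasDerivAt m (m' x) x) (hm' : ContinuousOn m' (Icc α β))
    (mpos : ∀ x ∈ Icc α β, 0 < m x) (decr : ∀ x ∈ Icc α β, m' x ≤ -(c * m x))
    (hS : ∀ x ∈ Icc α β, HasDerivAt S (D x) x) (hD : ∀ x ∈ Icc α β, HasDerivAt D (-l * (m x * S x)) x)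
    (hSα : S α = 0) (hDα : D α = 1) (hSβ : S β = 0) :
    (β - α) * (m β / m α) / 2 ≤ l * (∫ x in α..β, m x * S x ^ 2) ∧ (1 + c * (β - α) / 2) * D β ^ 2 ≤ 1 ∧
      ∀ x ∈ Icc α β, |D x| ≤ 1 ∧ |S x| ≤ β - α := by
  have hα : α ∈ Icc α β := left_mem_Icc.2 hab.le
  have hβ : β ∈ Icc α β := right_mem_Icc.2 hab.le
  have hu : uIcc α β = Icc α β := uIcc_of_le hab.le
  have cm : ContinuousOn m (Icc α β) := fun x hx => (hm x hx).continuousAt.continuousWithinAt
  have cS : ContinuousOn S (Icc α β) := fun x hx => (hS x hx).continuousAt.continuousWithinAt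
  have cD : ContinuousOn D (Icc α β) := fun x hx => (hD x hx).continuousAt.continuousWithinAt
  have mneg : ∀ x ∈ Icc α β, m' x ≤ 0 := fun x hx => (decr x hx).trans (by
    have := mul_pos hc (mpos x hx)
    linarith)
  -- the energy
  set E : ℝ → ℝ := fun x => D x ^ 2 + l * (m x * S x ^ 2) with hE
  have dE : ∀ x ∈ Icc α β, HasDerivAt E (l * (m' x * S x ^ 2)) x := by
    intro x hx
    have h1 := ((hD x hx).pow 2).add (((hm x hx).mul ((hS x hx).pow 2)).const_mul l)
    refine h1.congr_deriv ?_
    simp only [Pi.pow_apply]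
    push_cast
    ring
  have cE : ContinuousOn E (Icc α β) := fun x hx => (dE x hx).continuousAt.continuousWithinAt
  have anti : AntitoneOn E (Icc α β) := by
    refine antitoneOn_of_deriv_nonpos (convex_Icc α β) cE ?_ ?_
    · intro x hx
      exact (dE x (interior_subset hx)).differentiableAt.differentiableWithinAt
    · intro x hx
      rw [(dE x (interior_subset hx)).deriv]
      have := mneg x (interior_subset hx)
      have h2 : 0 ≤ S x ^ 2 := sq_nonneg _
      nlinarith [mul_nonneg hl.le h2]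
  have Eα : E α = 1 := by
    simp only [hE, hSα, hDα]
    ring
  have Eβ : E β = D β ^ 2 := by
    simp only [hE, hSβ]
    ring
  have hD1 : ∀ x ∈ Icc α β, |D x| ≤ 1 := by
    intro x hx
    have h1 : E x ≤ 1 := by rw [← Eα]; exact anti hα hx hx.1
    have h2 : D x ^ 2 ≤ E x := by
      have := mul_nonneg hl.le (mul_nonneg (mpos x hx).le (sq_nonneg (S x)))
      simp only [hE]
      linarith
    exact abs_le_one_iff_mul_self_le_one.2 (by nlinarith)
  have hS1 : ∀ x ∈ Icc α β, |S x| ≤ β - α := by
    intro x hx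
    have h1 := Convex.norm_image_sub_le_of_norm_hasDerivWithin_le (f := S) (f' := D) (C := 1) (s := Icc α β)
      (fun y hy => (hS y hy).hasDerivWithinAt) (fun y hy => hD1 y hy) (convex_Icc α β) hα hx
    rw [hSα, sub_zero, one_mul, Real.norm_eq_abs, Real.norm_eq_abs, abs_of_nonneg (show 0 ≤ x - α by linarith [hx.1])] at h1
    linarith [hx.2]
  -- the quotient
  set G : ℝ → ℝ := fun x => D x ^ 2 / m x + l * S x ^ 2 with hG
  have dG : ∀ x ∈ Icc α β, HasDerivAt G (-(D x ^ 2 * m' x) / m x ^ 2) x := by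
    intro x hx
    have hmx := (mpos x hx).ne'
    have h1 := (((hD x hx).pow 2).div (hm x hx) hmx).add (((hS x hx).pow 2).const_mul l)
    refine h1.congr_deriv ?_
    simp only [Pi.pow_apply]
    push_cast
    field_simp
    ring
  have mono : MonotoneOn G (Icc α β) := by
    refine monotoneOn_of_deriv_nonneg (convex_Icc α β) (fun x hx => (dG x hx).continuousAt.continuousWithinAt) ?_ ?_
    · intro x hx
      exact (dG x (interior_subset hx)).differentiableAt.differentiableWithinAt
    · intro x hx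
      rw [(dG x (interior_subset hx)).deriv]
      have h1 := mneg x (interior_subset hx)
      have h2 : 0 ≤ D x ^ 2 := sq_nonneg _
      have h3 : 0 ≤ m x ^ 2 := sq_nonneg _
      refine div_nonneg ?_ h3
      nlinarith
  have hmα := mpos α hα
  have hmβ := mpos β hβ
  have manti : AntitoneOn m (Icc α β) := by
    refine antitoneOn_of_deriv_nonpos (convex_Icc α β) cm ?_ ?_
    · intro x hx
      exact (hm x (interior_subset hx)).differentiableAt.differentiableWithinAt
    · intro x hx
      rw [(hm x (interior_subset hx)).deriv]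
      exact mneg x (interior_subset hx)
  have Elow : ∀ x ∈ Icc α β, m β / m α ≤ E x := by
    intro x hx
    have h1 : G α ≤ G x := mono hα hx hx.1
    have h2 : G α = 1 / m α := by simp only [hG, hSα, hDα]; ring
    have h3 : E x = m x * G x := by
      simp only [hE, hG]
      have := (mpos x hx).ne'
      field_simp
    have h4 : m β ≤ m x := manti hx hβ hx.2
    rw [h3]
    rw [h2] at h1
    calc m β / m α = m β * (1 / m α) := by ring
      _ ≤ m x * (1 / m α) := mul_le_mul_of_nonneg_right h4 (by positivity)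
      _ ≤ m x * G x := mul_le_mul_of_nonneg_left h1 (mpos x hx).le
  -- integrals
  have iS : IntervalIntegrable (fun x => m x * S x ^ 2) volume α β :=
    (cm.mul (cS.pow 2)).intervalIntegrable_of_Icc hab.le
  have iD : IntervalIntegrable (fun x => D x ^ 2) volume α β := (cD.pow 2).intervalIntegrable_of_Icc hab.le
  have iE : IntervalIntegrable E volume α β := cE.intervalIntegrable_of_Icc hab.le
  have h1 : ∫ x in α..β, (D x ^ 2 - l * (m x * S x ^ 2)) = 0 := by
    rw [intervalIntegral.integral_eq_sub_of_hasDerivAt (f := fun x => S x * D x)]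
    · rw [hSα, hSβ]
      ring
    · intro x hx
      rw [hu] at hx
      refine ((hS x hx).mul (hD x hx)).congr_deriv ?_
      ring
    · exact iD.sub (iS.const_mul l)
  rw [intervalIntegral.integral_sub iD (iS.const_mul l), intervalIntegral.integral_const_mul] at h1
  have h2 : ∫ x in α..β, E x = 2 * (l * ∫ x in α..β, m x * S x ^ 2) := by
    simp only [hE]
    rw [intervalIntegral.integral_add iD (iS.const_mul l), intervalIntegral.integral_const_mul]
    linarith
  have h3 : (β - α) * (m β / m α) ≤ ∫ x in α..β, E x := by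
    have := intervalIntegral.integral_mono_on hab.le (intervalIntegrable_const (c := m β / m α)) iE Elow
    rwa [intervalIntegral.integral_const, smul_eq_mul] at this
  have h4 : (β - α) * E β ≤ ∫ x in α..β, E x := by
    have := intervalIntegral.integral_mono_on hab.le (intervalIntegrable_const (c := E β)) iE
      (fun x hx => anti hx hβ hx.2)
    rwa [intervalIntegral.integral_const, smul_eq_mul] at this
  have h5 : E β - E α ≤ -(c * (l * ∫ x in α..β, m x * S x ^ 2)) := by
    have i' : IntervalIntegrable (fun x => l * (m' x * S x ^ 2)) volume α β :=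
      ((hm'.mul (cS.pow 2)).intervalIntegrable_of_Icc hab.le).const_mul l
    have h6 := intervalIntegral.integral_eq_sub_of_hasDerivAt (f := E) (a := α) (b := β)
      (f' := fun x => l * (m' x * S x ^ 2)) (fun x hx => dE x (by rwa [hu] at hx)) i'
    rw [← h6]
    have h7 : -(c * (l * ∫ x in α..β, m x * S x ^ 2)) = ∫ x in α..β, -(c * l) * (m x * S x ^ 2) := by
      rw [intervalIntegral.integral_const_mul]
      ring
    rw [h7]
    refine intervalIntegral.integral_mono_on hab.le i' (iS.const_mul _) fun x hx => ?_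
    have h8 := mul_le_mul_of_nonneg_right (decr x hx) (mul_nonneg hl.le (sq_nonneg (S x)))
    nlinarith
  refine ⟨by linarith, ?_, fun x hx => ⟨hD1 x hx, hS1 x hx⟩⟩
  rw [Eβ] at h4 h5
  rw [Eα] at h5
  have h9 : c / 2 * ((β - α) * D β ^ 2) ≤ c / 2 * ∫ x in α..β, E x := mul_le_mul_of_nonneg_left h4 (by positivity)
  rw [h2] at h9
  nlinarith

open Pool.Agent.Q62.CC in
theorem t_BDS (hp1 : S_ODE) : S_BDS := by
  intro m x₀ x₁ α β M c hw
  have hsub : Icc α β ⊆ Ioo x₀ x₁ := fun x hx => ⟨hw.h0.trans_le hx.1, hx.2.trans_lt hw.h1⟩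
  have hmα := hw.pos α (hsub (left_mem_Icc.2 hw.hab.le))
  have hmβ := hw.pos β (hsub (right_mem_Icc.2 hw.hab.le))
  have hab := hw.hab
  have hc := hw.hc
  have hpos : 0 < c * (β - α) / 2 := by
    have : 0 < β - α := by linarith
    positivity
  refine ⟨(β - α) * (m β / m α) / 2, √(1 + c * (β - α) / 2) - 1, ?_, ?_, ?_⟩
  · have : 0 < β - α := by linarith
    positivity
  · have : 1 < √(1 + c * (β - α) / 2) := by
      rw [Real.lt_sqrt (by norm_num)]
      linarith
    linarith
  intro l hl hSβ
  obtain ⟨-, -, hS0, hSd0, hx⟩ := hp1 m x₀ x₁ α β M c hw (-l)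
  obtain ⟨h1, h2, h3⟩ := core (m := m) (m' := deriv m) (S := Sz m α (-l)) (D := Sdz m α (-l)) hab hc hl
    (fun x hx => ((hw.smooth.differentiableOn (by simp)).differentiableAt
      (Ioo_mem_nhds (hsub hx).1 (hsub hx).2)).hasDerivAt)
    ((hw.smooth.continuousOn_deriv_of_isOpen isOpen_Ioo (by simp)).mono hsub)
    (fun x hx => hw.pos x (hsub hx)) hw.decr (fun x hx' => (hx x (hsub hx')).2.2.1)
    (fun x hx' => (hx x (hsub hx')).2.2.2.1) hS0 hSd0 hSβ
  refine ⟨?_, ?_, h3⟩
  · rwa [integral_Icc_eq_integral_Ioc, ← intervalIntegral.integral_of_le hab.le]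
  · have hW := (hx β (hsub (right_mem_Icc.2 hab.le))).2.2.2.2.2
    rw [hSβ, mul_zero, sub_zero] at hW
    set C := Cz m α (-l) β
    set D := Sdz m α (-l) β
    have h4 : 1 + c * (β - α) / 2 ≤ C ^ 2 := by
      have h5 := mul_le_mul_of_nonneg_right h2 (sq_nonneg C)
      have h6 : (1 + c * (β - α) / 2) * D ^ 2 * C ^ 2 = (1 + c * (β - α) / 2) * (C * D) ^ 2 := by ring
      rw [h6, hW] at h5
      linarith
    have h5 : √(1 + c * (β - α) / 2) ≤ |C| := by
      rw [← Real.sqrt_sq_eq_abs]
      exact Real.sqrt_le_sqrt h4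
    have h6 := abs_sub_abs_le_abs_sub C 1
    rw [abs_one, abs_sub_comm] at h6
    linarith

end Pool.Agent.Q224.CC
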