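import Pool.Agent.Q62.CC.Stm

/-!
# Project CC of helper62: the energy of the free flow
-/

set_option autoImplicit false

open Set Filter Topology MeasureTheory
open scoped ENNReal

namespace Pool.Agent.Q224.CC

/-- the square of a finite sum of orthogonal functions -/
lemma int_sq {μ : Measure ℝ} {ι : Type} {ψ : ι → ℝ → ℝ} {l b : ι → ℝ}
    (hI : ∀ i j, Integrable (fun x => ψ i x * ψ j x) μ)
    (hn : ∀ i, ∫ x, ψ i x ^ 2 ∂μ = l i) (ho : ∀ i j, i ≠ j → ∫ x, ψ i x * ψ j x ∂μ = 0) (s : Finset ι) :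
    ∫ x, (∑ i ∈ s, b i * ψ i x) ^ 2 ∂μ = ∑ i ∈ s, l i * b i ^ 2 := by
  classical
  have h1 : ∀ x, (∑ i ∈ s, b i * ψ i x) ^ 2 = ∑ i ∈ s, ∑ j ∈ s, b i * b j * (ψ i x * ψ j x) := fun x => by
    rw [sq, Finset.sum_mul_sum]
    refine Finset.sum_congr rfl fun i _ => Finset.sum_congr rfl fun j _ => by ring
  simp only [h1]
  rw [integral_finsetSum _ fun i _ => integrable_finsetSum _ fun j _ => (hI i j).const_mul _]
  refine Finset.sum_congr rfl fun i hi => ?_
  rw [integral_finsetSum _ fun j _ => (hI i j).const_mul _]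
  simp only [integral_const_mul]
  rw [Finset.sum_eq_single i]
  · have : ∫ x, ψ i x * ψ i x ∂μ = l i := by rw [← hn i]; simp only [sq]
    rw [this]
    ring
  · intro j _ hj
    rw [ho i j hj.symm, mul_zero]
  · intro h
    exact absurd hi h

lemma hasSum_sq {α β : ℝ} {ι : Type} [Countable ι] {ψ : ι → ℝ → ℝ} {l b u : ι → ℝ} {B : ι → ℝ} (hab : α ≤ β)
    (hme : ∀ i, AEStronglyMeasurable (ψ i) (volume.restrict (Icc α β)))
    (hB : ∀ i, ∀ x ∈ Icc α β, |ψ i x| ≤ B i) (hu : Summable u) (hub : ∀ i, ∀ x ∈ Icc α β, |b i * ψ i x| ≤ u i)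
    (hn : ∀ i, ∫ x in Icc α β, ψ i x ^ 2 = l i) (ho : ∀ i j, i ≠ j → ∫ x in Icc α β, ψ i x * ψ j x = 0) :
    HasSum (fun i => l i * b i ^ 2) (∫ x in Icc α β, (∑' i, b i * ψ i x) ^ 2) := by
  have hI : ∀ i j, Integrable (fun x => ψ i x * ψ j x) (volume.restrict (Icc α β)) := by
    intro i j
    refine Integrable.of_bound (C := B i * B j) ((hme i).mul (hme j)) ?_
    filter_upwards [ae_restrict_mem measurableSet_Icc] with x hx
    rw [Real.norm_eq_abs, abs_mul]
    exact mul_le_mul (hB i x hx) (hB j x hx) (abs_nonneg _) ((abs_nonneg _).trans (hB i x hx))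
  have hu0 : ∀ i, 0 ≤ u i := fun i => (abs_nonneg _).trans (hub i α (left_mem_Icc.2 hab))
  show Tendsto (fun s : Finset ι => ∑ i ∈ s, l i * b i ^ 2) _ _
  simp only [← int_sq (b := b) hI hn ho]
  refine tendsto_integral_filter_of_dominated_convergence (fun _ => (∑' i, u i) ^ 2) ?_ ?_ ?_ ?_
  · refine Eventually.of_forall fun s => ?_
    refine AEStronglyMeasurable.pow ?_ 2
    exact Finset.aestronglyMeasurable_fun_sum _ fun i _ => (hme i).const_mul _
  · refine Eventually.of_forall fun s => ?_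
    filter_upwards [ae_restrict_mem measurableSet_Icc] with x hx
    rw [Real.norm_eq_abs, abs_pow]
    refine pow_le_pow_left₀ (abs_nonneg _) ?_ 2
    refine (Finset.abs_sum_le_sum_abs _ _).trans ((Finset.sum_le_sum fun i _ => hub i x hx).trans ?_)
    exact hu.sum_le_tsum s fun i _ => hu0 i
  · exact integrable_const _
  · filter_upwards [ae_restrict_mem measurableSet_Icc] with x hx
    have h1 : Summable fun i => b i * ψ i x := Summable.of_norm_bounded hu fun i => hub i x hx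
    exact h1.hasSum.pow 2

/-- the integral of the exponential function -/
lemma lint_exp {c l : ℝ} (hc : 0 ≤ c) (hl : 0 < l) :
    ∫⁻ t in Ioi (0 : ℝ), ENNReal.ofReal (c * Real.exp (-(l * t)) ^ 2) = ENNReal.ofReal (c / (2 * l)) := by
  have e : ∀ t : ℝ, c * Real.exp (-(l * t)) ^ 2 = c * Real.exp (-(2 * l) * t) := fun t => by
    rw [← Real.exp_nat_mul]
    congr 2
    push_cast
    ring
  simp only [e]
  rw [← ofReal_integral_eq_lintegral_ofReal]
  · congr 1
    rw [integral_const_mul, integral_exp_mul_Ioi (by linarith)]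
    simp
    field_simp
  · exact ((integrableOn_exp_mul_Ioi (by linarith) 0)).const_mul c
  · exact ae_of_all _ fun t => by positivity

open Pool.Agent.Q62.CC in
theorem t_ENG (hp0 : S_ODE) (hp1 : S_CVG) : S_ENG := by
  intro m x₀ x₁ α β M c hw ι _ l e A hs f hf
  have hab := hw.hab
  have hsub : Icc α β ⊆ Ioo x₀ x₁ := fun x hx => ⟨hw.h0.trans_le hx.1, hx.2.trans_lt hw.h1⟩
  have cm : ContinuousOn m (Icc α β) := hw.smooth.continuousOn.mono hsub
  obtain ⟨x1, hx1, hmin⟩ := isCompact_Icc.exists_isMinOn (nonempty_Icc.2 hab.le) cm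
  have hm₀ : 0 < m x1 := hw.pos _ (hsub hx1)
  have hmin' : ∀ x ∈ Icc α β, m x1 ≤ m x := fun x hx => hmin hx
  set m₀ := m x1 with hm₀d
  set a : ι → ℝ := co m α β l e f with had
  have ha : Summable fun i => a i ^ 2 := (hs.pars f hf).summable
  have mVd : ∀ z, AEStronglyMeasurable (Vdz m α β z) (volume.restrict (Icc α β)) := fun z => by
    refine (measurable_deriv (Vz m α β z)).aestronglyMeasurable.congr ?_
    filter_upwards [ae_restrict_mem measurableSet_Icc] with x hx
    exact ((hp0 m x₀ x₁ α β M c hw z).2.2.2.2 x (hsub hx)).2.2.2.2.1.deriv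
  have key : ∀ t : ℝ, 0 < t → ∫⁻ x in Icc α β, (‖VF m α β l e f t x‖ₑ ^ 2 + ‖WF m α β l e f t x‖ₑ ^ 2) ≤
      ∑' i, ENNReal.ofReal (((1 / m₀ + l i) * a i ^ 2) * Real.exp (-(l i * t)) ^ 2) := by
    intro t ht
    obtain ⟨⟨u, hu, hub⟩, cV, cW, hco⟩ := hp1 m x₀ x₁ α β M c hw ι l e A hs f hf t ht
    obtain ⟨CV, hCV⟩ := isCompact_Icc.exists_bound_of_continuousOn cV
    have hV : MemLp (VF m α β l e f t) 2 (volume.restrict (Icc α β)) := by
      refine MemLp.of_bound (cV.aestronglyMeasurable measurableSet_Icc) CV ?_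
      filter_upwards [ae_restrict_mem measurableSet_Icc] with x hx
      exact hCV x hx
    have pV := hs.pars _ hV
    have pV' : HasSum (fun i => (a i * Real.exp (-(l i * t))) ^ 2) (∫ x in Icc α β, m x * VF m α β l e f t x ^ 2) := by
      have e1 : (fun i => (a i * Real.exp (-(l i * t))) ^ 2) = fun i =>
          (∫ x in Icc α β, m x * (VF m α β l e f t x * (e i * Vz m α β (-l i) x))) ^ 2 := by
        funext i
        have h := hco i
        unfold co at h
        rw [h]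
        rfl
      rw [e1]
      exact pV
    have pW : HasSum (fun i => l i * (a i * Real.exp (-(l i * t))) ^ 2) (∫ x in Icc α β, WF m α β l e f t x ^ 2) :=
      hasSum_sq (ψ := fun i x => e i * Vdz m α β (-l i) x) (B := fun i => A * (1 + l i) ^ 2) hab.le
        (fun i => (mVd (-l i)).const_mul (e i)) (fun i x hx => hs.dbd i x hx) hu (fun i x hx => (hub i x hx).2)
        hs.dnorm hs.dorth
    have iV : IntegrableOn (fun x => VF m α β l e f t x ^ 2) (Icc α β) := (cV.pow 2).integrableOn_Icc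
    have iW : IntegrableOn (fun x => WF m α β l e f t x ^ 2) (Icc α β) := (cW.pow 2).integrableOn_Icc
    have imV : IntegrableOn (fun x => m x * VF m α β l e f t x ^ 2) (Icc α β) := (cm.mul (cV.pow 2)).integrableOn_Icc
    have h1 : m₀ * ∫ x in Icc α β, VF m α β l e f t x ^ 2 ≤ ∫ x in Icc α β, m x * VF m α β l e f t x ^ 2 := by
      rw [← integral_const_mul]
      exact setIntegral_mono_on (iV.const_mul _) imV measurableSet_Icc fun x hx =>
        mul_le_mul_of_nonneg_right (hmin' x hx) (sq_nonneg _)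
    have h2 : ∫⁻ x in Icc α β, (‖VF m α β l e f t x‖ₑ ^ 2 + ‖WF m α β l e f t x‖ₑ ^ 2) =
        ENNReal.ofReal ((∫ x in Icc α β, VF m α β l e f t x ^ 2) + ∫ x in Icc α β, WF m α β l e f t x ^ 2) := by
      have iVW : IntegrableOn (fun x => VF m α β l e f t x ^ 2 + WF m α β l e f t x ^ 2) (Icc α β) := iV.add iW
      rw [← integral_add iV iW, ofReal_integral_eq_lintegral_ofReal iVW
        (ae_of_all _ fun x => add_nonneg (sq_nonneg _) (sq_nonneg _))]
      refine lintegral_congr fun x => ?_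
      rw [Real.enorm_eq_ofReal_abs, Real.enorm_eq_ofReal_abs, ← ENNReal.ofReal_pow (abs_nonneg _),
        ← ENNReal.ofReal_pow (abs_nonneg _), sq_abs, sq_abs, ← ENNReal.ofReal_add (sq_nonneg _) (sq_nonneg _)]
    have pS := (pV'.mul_left (1 / m₀)).add pW
    have pS' : HasSum (fun i => ((1 / m₀ + l i) * a i ^ 2) * Real.exp (-(l i * t)) ^ 2)
        (1 / m₀ * (∫ x in Icc α β, m x * VF m α β l e f t x ^ 2) + ∫ x in Icc α β, WF m α β l e f t x ^ 2) := by
      have e1 : (fun i => ((1 / m₀ + l i) * a i ^ 2) * Real.exp (-(l i * t)) ^ 2) = fun i =>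
          1 / m₀ * (a i * Real.exp (-(l i * t))) ^ 2 + l i * (a i * Real.exp (-(l i * t))) ^ 2 := by
        funext i
        ring
      rw [e1]
      exact pS
    rw [h2, ← ENNReal.ofReal_tsum_of_nonneg (fun i => by have := hs.lpos i; positivity) pS'.summable, pS'.tsum_eq]
    refine ENNReal.ofReal_le_ofReal ?_
    have h3 : ∫ x in Icc α β, VF m α β l e f t x ^ 2 ≤ 1 / m₀ * ∫ x in Icc α β, m x * VF m α β l e f t x ^ 2 := by
      rw [one_div, ← div_eq_inv_mul, le_div_iff₀ hm₀]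
      linarith
    linarith
  have hb : ∀ i, (l i)⁻¹ ≤ 1 + ∑' i, ((l i)⁻¹) ^ 2 := fun i => by
    have h1 := hs.lsum.le_tsum i fun j _ => sq_nonneg _
    nlinarith [sq_nonneg ((l i)⁻¹ - 1)]
  have hsum : Summable fun i => (1 / m₀ + l i) * a i ^ 2 / (2 * l i) := by
    refine Summable.of_nonneg_of_le (fun i => ?_) (fun i => ?_)
      (ha.mul_right ((1 / m₀) * (1 + ∑' i, ((l i)⁻¹) ^ 2) / 2 + 1 / 2))
    · have := hs.lpos i
      positivity
    · have hl := hs.lpos i
      have h1 : (1 / m₀ + l i) * a i ^ 2 / (2 * l i) = a i ^ 2 * ((1 / m₀) * (l i)⁻¹ / 2 + 1 / 2) := by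
        field_simp
      rw [h1]
      refine mul_le_mul_of_nonneg_left ?_ (sq_nonneg _)
      have h2 : 1 / m₀ * (l i)⁻¹ ≤ 1 / m₀ * (1 + ∑' i, ((l i)⁻¹) ^ 2) := mul_le_mul_of_nonneg_left (hb i) (by positivity)
      linarith
  calc ∫⁻ t in Ioi (0 : ℝ), ∫⁻ x in Icc α β, (‖VF m α β l e f t x‖ₑ ^ 2 + ‖WF m α β l e f t x‖ₑ ^ 2) ≤
        ∫⁻ t in Ioi (0 : ℝ), ∑' i, ENNReal.ofReal (((1 / m₀ + l i) * a i ^ 2) * Real.exp (-(l i * t)) ^ 2) :=
        setLIntegral_mono' measurableSet_Ioi fun t ht => key t ht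
    _ = ∑' i, ∫⁻ t in Ioi (0 : ℝ), ENNReal.ofReal (((1 / m₀ + l i) * a i ^ 2) * Real.exp (-(l i * t)) ^ 2) := by
        refine lintegral_tsum fun i => ?_
        exact (by fun_prop : Measurable fun t : ℝ => ENNReal.ofReal (((1 / m₀ + l i) * a i ^ 2) *
          Real.exp (-(l i * t)) ^ 2)).aemeasurable
    _ = ∑' i, ENNReal.ofReal ((1 / m₀ + l i) * a i ^ 2 / (2 * l i)) :=
        tsum_congr fun i => lint_exp (by have := hs.lpos i; positivity) (hs.lpos i)
    _ < ⊤ := hsum.tsum_ofReal_lt_top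

end Pool.Agent.Q224.CC
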