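import Pool.Agent.Q152.CC.Stm
import Pool.Agent.Q38.CU.Syt
import Pool.Agent.Q26.CU.Cub

set_option autoImplicit false

/-! Project CC (helper152), job MS: the mean square of the random function. -/

namespace Pool.Agent.Q224.CC

open Finset MeasureTheory
open Pool.Agent.Q152.CC
open Pool.Agent.Q255.CU (fc m3 e3 v3 f3 S_SYT S_WGT S_CUB)
open Pool.Agent.Q255.HC (Sys ex S_HCI)

theorem ms0 (syt : S_SYT) (cub : S_CUB) : S_MS := by
  classical
  intro M N hN c hc
  have hp : IsProbabilityMeasure m3 := by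
    unfold m3
    infer_instance
  have hint : ∀ m n : ℕ, Integrable (fun ω => f3 ω m * star (f3 ω n)) rm := by
    intro m n
    refine Integrable.of_bound (C := 1) ?_ (Filter.Eventually.of_forall fun ω => ?_)
    · exact (((syt.2.2.2.1 (fun _ => 0) m).2.2).mul
        (continuous_star.measurable.comp (syt.2.2.2.1 (fun _ => 0) n).2.2)).aestronglyMeasurable
    · rw [norm_mul, norm_star, (syt.2.2.2.1 ω m).1, (syt.2.2.2.1 ω n).1, one_mul]
  have h1 : ∫ ω, ‖∑ n ∈ Ioc M (M + N), ((c n : ℝ) : ℂ) * rc ω n‖ ^ 2 ∂rm =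
      ∑ m ∈ Ioc M (M + N), ∑ n ∈ Ioc M (M + N), c m * c n * (if fc m = fc n then 1 else 0) := by
    have h3 : ∀ ω, ((‖∑ n ∈ Ioc M (M + N), ((c n : ℝ) : ℂ) * rc ω n‖ ^ 2 : ℝ) : ℂ) =
        ∑ m ∈ Ioc M (M + N), ∑ n ∈ Ioc M (M + N),
          ((c m : ℂ) * (c n : ℂ)) * (f3 ω m * star (f3 ω n)) := by
      intro ω
      rw [Complex.ofReal_pow, ← Complex.mul_conj', map_sum, sum_mul_sum]
      refine sum_congr rfl fun m _ => sum_congr rfl fun n _ => ?_
      rw [map_mul, Complex.conj_ofReal]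
      show (c m : ℂ) * f3 ω m * ((c n : ℂ) * star (f3 ω n)) = _
      ring
    have h2 : ((∫ ω, ‖∑ n ∈ Ioc M (M + N), ((c n : ℝ) : ℂ) * rc ω n‖ ^ 2 ∂rm : ℝ) : ℂ) =
        ((∑ m ∈ Ioc M (M + N), ∑ n ∈ Ioc M (M + N),
          c m * c n * (if fc m = fc n then 1 else 0) : ℝ) : ℂ) := by
      rw [← integral_complex_ofReal, integral_congr_ae (Filter.Eventually.of_forall h3)]
      rw [integral_finsetSum _ fun m _ => integrable_finsetSum _ fun n _ =>
        (hint m n).const_mul _]
      push_cast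
      refine sum_congr rfl fun m hm => ?_
      rw [integral_finsetSum _ fun n _ => (hint m n).const_mul _]
      refine sum_congr rfl fun n hn => ?_
      rw [mem_Ioc] at hm hn
      rw [integral_const_mul, syt.2.2.2.2 m n (by omega) (by omega)]
      split_ifs <;> simp
    exact_mod_cast h2
  rw [h1]
  calc ∑ m ∈ Ioc M (M + N), ∑ n ∈ Ioc M (M + N), c m * c n * (if fc m = fc n then 1 else 0)
      ≤ ∑ m ∈ Ioc M (M + N), ∑ n ∈ Ioc M (M + N), (if fc m = fc n then (1 : ℝ) else 0) := by
        refine sum_le_sum fun m _ => sum_le_sum fun n _ => ?_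
        split_ifs
        · rw [mul_one]
          exact mul_le_one₀ (hc m).2 (hc n).1 (hc n).2
        · rw [mul_zero]
    _ = ∑ m ∈ Ioc M (M + N), (((Ioc M (M + N)).filter (fun a => fc a = fc m)).card : ℝ) := by
        refine sum_congr rfl fun m _ => ?_
        rw [← sum_filter, sum_const, nsmul_eq_mul, mul_one]
        congr 2
        ext a
        rw [mem_filter, mem_filter, eq_comm (a := fc m)]
    _ = ∑ x ∈ (Ioc M (M + N)).image fc,
          (((Ioc M (M + N)).filter (fun a => fc a = x)).card : ℝ) ^ 2 := by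
        rw [← sum_fiberwise_of_maps_to (s := Ioc M (M + N))
          (t := (Ioc M (M + N)).image fc) (g := fc) (fun a ha => mem_image_of_mem fc ha)]
        refine sum_congr rfl fun x _ => ?_
        rw [sq, ← nsmul_eq_mul]
        rw [← sum_const]
        refine sum_congr rfl fun m hm => ?_
        rw [(mem_filter.1 hm).2]
    _ ≤ 20 * N := cub M N hN

/-- **Job MS.** -/
theorem ms : S_MS := ms0 Pool.Agent.Q38.CU.syt Pool.Agent.Q26.CU.cub

end Pool.Agent.Q224.CC
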